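import Pool.Agent.TH755.BN.Law
import Pool.Agent.TH755.BL.Neg
import Pool.Agent.TH678.PN.Main
import Pool.Agent.TH707.EC.LangE

/-!
# `NEXP` in `P^NP`, by an adversary who controls most of the coins
-/

set_option autoImplicit false

namespace Pool.Agent.TH755.BN

open Pool.Agent.NPC Pool.Agent.H620R2.Gauge Pool.Agent.H622R2.Exp Finset MeasureTheory Filter
open Pool.Agent.W900.BC Pool.Agent.TH755.BE
open Pool.Agent.TH678.PN (Z cdN NN lp IsPNP cdN_inj length_ms isPNP_of_code cert_local)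
open Pool.Agent.TH707.EC (keys mem_keys card_keys)

/-- every algorithm occurs infinitely often -/
theorem exists_often : ∃ u : ℕ → Alg × Polynomial ℕ,
    ∀ (g : Alg × Polynomial ℕ) (N : ℕ), ∃ e, N ≤ e ∧ u e = g := by
  obtain ⟨al, hal⟩ := exists_alg
  have h1 := CC.poly_countable
  have h2 : Countable Alg := hal.countable
  have h3 : Nonempty (Alg × Polynomial ℕ) := ⟨(al 0, 0)⟩
  obtain ⟨u, hu⟩ := exists_surjective_nat (Alg × Polynomial ℕ)
  refine ⟨fun e => u (Nat.unpair e).1, fun g N => ?_⟩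
  obtain ⟨i, hi⟩ := hu g
  refine ⟨Nat.pair i N, Nat.right_le_pair i N, ?_⟩
  show u (Nat.unpair (Nat.pair i N)).1 = g
  rw [Nat.unpair_pair]
  exact hi

theorem sum_pow_le (s : Finset (ℕ × ℕ)) :
    ∑ q ∈ s, 2 ^ q.2 + 1 ≤ 2 ^ (∑ q ∈ s, (q.2 + 1)) := by
  classical
  induction s using Finset.induction_on with
  | empty => simp
  | insert a s ha ih =>
    rw [sum_insert ha, sum_insert ha, pow_add, pow_succ]
    have h1 : 1 ≤ 2 ^ a.2 := Nat.one_le_two_pow
    have h2 : 1 ≤ 2 ^ (∑ q ∈ s, (q.2 + 1)) := Nat.one_le_two_pow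
    nlinarith

section

variable (r : ℕ → Polynomial ℕ) (K : ℕ)

/-- the size of a question -/
def sz (e n : ℕ) : ℕ := (r e).eval n + 2 * n + e + 5

/-- the exponents for the marks -/
noncomputable def pp (e : ℕ) : Polynomial ℕ :=
  (r e + Polynomial.C 2 * Polynomial.X + Polynomial.C (e + 5)) ^ 3

/-- the paddings -/
noncomputable def RR (e : ℕ) : Polynomial ℕ := (Polynomial.X + Polynomial.C (e + 1)) ^ K

theorem lp_pp (e n : ℕ) : (lp (pp r) e).eval n = (sz r e n ^ 3 + 2 * n + e + 5) ^ 2 := by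
  unfold Pool.Agent.TH678.PN.lp pp sz
  simp only [Polynomial.eval_pow, Polynomial.eval_add, Polynomial.eval_mul, Polynomial.eval_C,
    Polynomial.eval_X]
  ring

/-- the number of digits -/
noncomputable def LL (t : ℕ × List Bool) : ℕ := (lp (pp r) t.1).eval t.2.length

/-- the root of the length -/
noncomputable def mm (e n : ℕ) : ℕ := 2 * (lp (pp r) e).eval n + n + e + 2

/-- the length of the code strings -/
noncomputable def lenp (e n : ℕ) : ℕ := mm r e n ^ K + mm r e n + 1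

theorem length_cdN {t : ℕ × List Bool} {v : ℕ} :
    (cdN (RR K) (pp r) t v).length = lenp r K t.1 t.2.length := by
  unfold cdN
  rw [Pool.Agent.TH755.BL.length_code, length_pairBits, length_ms]
  unfold lenp mm RR
  simp only [Polynomial.eval_pow, Polynomial.eval_add, Polynomial.eval_C, Polynomial.eval_X]
  have h1 : 2 * (lp (pp r) t.1).eval t.2.length + 1 + t.2.length + (t.1 + 1) =
      2 * (lp (pp r) t.1).eval t.2.length + t.2.length + t.1 + 2 := by ring
  rw [h1]
  ring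

theorem sz_pos (e n : ℕ) : 5 ≤ sz r e n ∧ n ≤ sz r e n ∧ e ≤ sz r e n ∧ n + 2 ≤ sz r e n ∧
    e + n + 2 ≤ sz r e n ∧ (r e).eval n ≤ sz r e n := by
  unfold sz
  omega

theorem L_bounds (e n : ℕ) : sz r e n ^ 6 ≤ (lp (pp r) e).eval n ∧
    (lp (pp r) e).eval n ≤ 4 * sz r e n ^ 6 := by
  rw [lp_pp]
  set s := sz r e n with hs
  have h1 := sz_pos r e n
  rw [← hs] at h1
  have h2 : 2 * n + e + 5 ≤ s := by rw [hs]; unfold sz; omega
  have h3 : s ≤ s ^ 3 := Nat.le_self_pow (by norm_num) s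
  constructor
  · calc s ^ 6 = (s ^ 3) ^ 2 := by ring
      _ ≤ _ := Nat.pow_le_pow_left (by omega) 2
  · calc (s ^ 3 + 2 * n + e + 5) ^ 2 ≤ (2 * s ^ 3) ^ 2 := Nat.pow_le_pow_left (by omega) 2
      _ = 4 * s ^ 6 := by ring

theorem mm_bounds (e n : ℕ) : 2 * sz r e n ^ 6 ≤ mm r e n ∧ mm r e n ≤ 9 * sz r e n ^ 6 := by
  have h1 := L_bounds r e n
  have h2 := sz_pos r e n
  have h3 : sz r e n ≤ sz r e n ^ 6 := Nat.le_self_pow (by norm_num) _
  unfold mm
  omega

theorem sz_le_of_mm {e n e' n' : ℕ} (h : mm r e n ≤ mm r e' n') :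
    sz r e n ≤ 2 * sz r e' n' := by
  by_contra hcon
  have h1 := (mm_bounds r e n).1
  have h2 := (mm_bounds r e' n').2
  have h3 : (2 * sz r e' n') ^ 6 ≤ sz r e n ^ 6 := Nat.pow_le_pow_left (by omega) 6
  have h4 : (2 * sz r e' n') ^ 6 = 64 * sz r e' n' ^ 6 := by ring
  have h5 : 1 ≤ sz r e' n' ^ 6 := Nat.one_le_pow _ _ (by have := sz_pos r e' n'; omega)
  omega

theorem mm_le_of_len {e n e' n' : ℕ} (h : lenp r K e n ≤ lenp r K e' n') :
    mm r e n ≤ mm r e' n' := by
  by_contra hcon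
  have h1 : mm r e' n' ^ K ≤ mm r e n ^ K := Nat.pow_le_pow_left (by omega) K
  unfold lenp at h
  omega

/-- the pairs with a given length -/
noncomputable def pr (l : ℕ) : Finset (ℕ × ℕ) :=
  (range (l + 1) ×ˢ range (l + 1)).filter fun q => lenp r K q.1 q.2 = l

theorem mem_pr {l : ℕ} {q : ℕ × ℕ} : q ∈ pr r K l ↔ lenp r K q.1 q.2 = l := by
  unfold pr
  rw [mem_filter, mem_product, mem_range, mem_range]
  constructor
  · exact fun h => h.2
  · intro h
    refine ⟨?_, h⟩
    unfold lenp mm at h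
    omega

open Classical in
/-- the questions with a given length -/
noncomputable def TT (l : ℕ) : Finset (ℕ × List Bool) :=
  (pr r K l).biUnion fun q => (keys q.2).image fun x => (q.1, x)

theorem mem_TT {l : ℕ} {t : ℕ × List Bool} : t ∈ TT r K l ↔ lenp r K t.1 t.2.length = l := by
  classical
  unfold TT
  rw [mem_biUnion]
  constructor
  · rintro ⟨q, hq, h⟩
    obtain ⟨x, hx, rfl⟩ := mem_image.1 h
    rw [mem_keys] at hx
    rw [mem_pr] at hq
    rw [← hq, hx]
  · intro h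
    exact ⟨(t.1, t.2.length), (mem_pr r K).2 h, mem_image.2 ⟨t.2, mem_keys.2 rfl, rfl⟩⟩

/-- the number of the digits fixed in a stage -/
noncomputable def kk (l : ℕ) : ℕ := ∑ q ∈ pr r K l, (q.2 + 2)

theorem kk_spec (l : ℕ) (hT : (TT r K l).Nonempty) : (TT r K l).card + 2 ≤ 2 ^ kk r K l := by
  classical
  have h1 : (TT r K l).card ≤ ∑ q ∈ pr r K l, 2 ^ q.2 := by
    unfold TT
    refine card_biUnion_le.trans (sum_le_sum fun q _ => ?_)
    exact card_image_le.trans (by rw [card_keys])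
  have h2 := sum_pow_le (pr r K l)
  have h3 : 1 ≤ (pr r K l).card := by
    obtain ⟨t, ht⟩ := hT
    exact card_pos.2 ⟨(t.1, t.2.length), (mem_pr r K).2 ((mem_TT r K).1 ht)⟩
  have h4 : kk r K l = ∑ q ∈ pr r K l, (q.2 + 1) + (pr r K l).card := by
    unfold kk
    rw [card_eq_sum_ones, ← sum_add_distrib]
  rw [h4, pow_add]
  have h5 : 2 ^ 1 ≤ 2 ^ (pr r K l).card := Nat.pow_le_pow_right (by norm_num) h3
  nlinarith

theorem sum_kk (e n l : ℕ) (hl : ∀ e' n', lenp r K e' n' ≤ l → sz r e' n' ≤ 2 * sz r e n) :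
    ∑ j ∈ range (l + 1), kk r K j ≤ 18 * sz r e n ^ 3 := by
  classical
  set s := sz r e n with hs
  have h5 := (sz_pos r e n).1
  rw [← hs] at h5
  unfold kk
  rw [← sum_biUnion]
  · have hsub : ((range (l + 1)).biUnion fun j => pr r K j) ⊆
        range (2 * s + 1) ×ˢ range (2 * s + 1) := by
      intro q hq
      obtain ⟨j, hj, hq⟩ := mem_biUnion.1 hq
      rw [mem_pr] at hq
      rw [mem_range] at hj
      have h1 := hl q.1 q.2 (by omega)
      have h2 := sz_pos r q.1 q.2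
      rw [mem_product, mem_range, mem_range]
      omega
    calc ∑ q ∈ (range (l + 1)).biUnion fun j => pr r K j, (q.2 + 2)
        ≤ ∑ q ∈ (range (l + 1)).biUnion fun j => pr r K j, 2 * s := by
          refine sum_le_sum fun q hq => ?_
          obtain ⟨j, hj, hq⟩ := mem_biUnion.1 hq
          rw [mem_pr] at hq
          rw [mem_range] at hj
          have h1 := hl q.1 q.2 (by omega)
          have h2 := sz_pos r q.1 q.2
          omega
      _ ≤ ((2 * s + 1) * (2 * s + 1)) * (2 * s) := by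
          rw [sum_const, smul_eq_mul]
          refine Nat.mul_le_mul_right _ ((card_le_card hsub).trans ?_)
          rw [card_product, card_range]
      _ ≤ (3 * s * (3 * s)) * (2 * s) :=
          Nat.mul_le_mul_right _ (Nat.mul_le_mul (by omega) (by omega))
      _ = 18 * s ^ 3 := by ring
  · intro i _ j _ hij
    rw [Function.onFun, disjoint_left]
    intro q h1 h2
    rw [mem_pr] at h1 h2
    exact hij (h1.symm.trans h2)

/-- the number of small questions -/
theorem card_small (G : Finset (ℕ × List Bool)) (s : ℕ) (h : ∀ t ∈ G, sz r t.1 t.2.length ≤ s) :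
    G.card ≤ 2 ^ s := by
  classical
  calc G.card ≤ ((range (2 ^ s)).image str).card := by
        refine card_le_card_of_injOn (fun t => List.replicate t.1 true ++ false :: t.2) ?_ ?_
        · intro t ht
          rw [mem_coe, mem_image]
          refine ⟨idx (List.replicate t.1 true ++ false :: t.2), ?_, str_idx _⟩
          rw [mem_range]
          have h4 := idx_lt (List.replicate t.1 true ++ false :: t.2)
          have h5 : (List.replicate t.1 true ++ false :: t.2).length + 1 ≤ s := by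
            rw [List.length_append, List.length_cons, List.length_replicate]
            have h6 := h t ht
            have h7 := sz_pos r t.1 t.2.length
            omega
          have h6 : 2 ^ ((List.replicate t.1 true ++ false :: t.2).length + 1) ≤ 2 ^ s :=
            Nat.pow_le_pow_right (by norm_num) h5
          omega
        · intro t _ t' _ h
          have h1 := Pool.Agent.TH93.LN.ones_inj _ _ h
          exact Prod.ext h1.1 h1.2
    _ ≤ 2 ^ s := card_image_le.trans (by rw [card_range])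

theorem sum_small (l s : ℕ) (h : ∀ e n, lenp r K e n ≤ l → sz r e n ≤ s) :
    ∑ j ∈ range (l + 1), ∑ t ∈ TT r K j, 2 ^ (r t.1).eval t.2.length ≤ 2 ^ s * 2 ^ s := by
  classical
  rw [← sum_biUnion]
  · have h1 : ∀ t ∈ (range (l + 1)).biUnion fun j => TT r K j, sz r t.1 t.2.length ≤ s := by
      intro t ht
      obtain ⟨j, hj, ht⟩ := mem_biUnion.1 ht
      rw [mem_TT] at ht
      rw [mem_range] at hj
      exact h _ _ (by omega)
    refine (sum_le_sum fun t ht => Nat.pow_le_pow_right (by norm_num)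
      ((sz_pos r t.1 t.2.length).2.2.2.2.2.trans (h1 t ht))).trans ?_
    rw [sum_const, smul_eq_mul]
    exact Nat.mul_le_mul_right _ (card_small r _ s h1)
  · intro i _ j _ hij
    rw [Function.onFun, disjoint_left]
    intro t h1 h2
    rw [mem_TT] at h1 h2
    exact hij (h1.symm.trans h2)

variable (Q : ℕ × List Bool → Oracle → Prop)
  (hQ : ∀ (t : ℕ × List Bool) (A : Oracle), Q t A → ∃ U : Finset (List Bool),
    U.card ≤ 2 ^ (r t.1).eval t.2.length ∧ ∀ A' : Oracle, (∀ u ∈ U, A' u = A u) → Q t A')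

theorem six_bound {s : ℕ} (h : 5 ≤ s) : 18 * s ^ 3 + (4 * s + 2) ≤ s ^ 6 := by
  have h1 : 125 ≤ s ^ 3 := by
    calc 125 = 5 ^ 3 := by norm_num
      _ ≤ s ^ 3 := Nat.pow_le_pow_left h 3
  have h2 : s ^ 6 = s ^ 3 * s ^ 3 := by ring
  have h3 : s ≤ s ^ 3 := Nat.le_self_pow (by norm_num) s
  rw [h2]
  nlinarith

/-- the jobs -/
noncomputable def job : PJ where
  L := LL r
  cd := cdN (RR K) (pp r)
  len t := lenp r K t.1 t.2.length
  length_cd t v _ := length_cdN r K
  inj t t' v v' := cdN_inj (RR K) (pp r) t t' v v'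
  T := TT r K
  mem_T l t := mem_TT r K
  Q := Q
  p t := 2 ^ (r t.1).eval t.2.length
  cert := hQ
  κ := kk r K
  hκ := kk_spec r K
  room t := by
    refine (sum_kk r K t.1 t.2.length _ fun e' n' h => sz_le_of_mm r (mm_le_of_len r K h)).trans ?_
    have h1 := (L_bounds r t.1 t.2.length).1
    have h2 := six_bound (sz_pos r t.1 t.2.length).1
    unfold LL
    omega
  space t := by
    have h0 : ∀ e' n', lenp r K e' n' ≤ lenp r K t.1 t.2.length →
        sz r e' n' ≤ 2 * sz r t.1 t.2.length := fun e' n' h => sz_le_of_mm r (mm_le_of_len r K h)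
    have h1 := sum_kk r K t.1 t.2.length _ h0
    have h2 := sum_small r K _ _ h0
    have h3 := (L_bounds r t.1 t.2.length).1
    have h4 := six_bound (sz_pos r t.1 t.2.length).1
    set s := sz r t.1 t.2.length with hs
    have h5 : 4 * s + 2 ≤ LL r t - ∑ j ∈ range (lenp r K t.1 t.2.length + 1), kk r K j := by
      unfold LL
      omega
    refine lt_of_lt_of_le ?_ (Nat.pow_le_pow_right (by norm_num) h5)
    have h6 : 2 ^ (2 * s) * 2 ^ (2 * s) = 2 ^ (4 * s) := by rw [← pow_add]; congr 1; ring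
    have h7 : 2 ^ (4 * s + 2) = 4 * 2 ^ (4 * s) := by rw [pow_add]; ring
    rw [h6] at h2
    rw [h7]
    have h8 : 1 ≤ 2 ^ (4 * s) := Nat.one_le_two_pow
    omega

/-- the number of important strings -/
theorem card_imp (l w : ℕ) (hw : ∀ m : ℕ, m ^ K ≤ l → m ≤ w) :
    ∑ j ∈ range (l + 1), ∑ t ∈ TT r K j, 2 ^ (r t.1).eval t.2.length +
      ∑ t ∈ TT r K l, 2 ^ LL r t ≤ 2 ^ (2 * w + 1) := by
  have h1 : ∀ e n, lenp r K e n ≤ l → mm r e n ≤ w := by
    intro e n h
    apply hw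
    unfold lenp at h
    omega
  have h2 : ∀ e n, sz r e n ≤ mm r e n := by
    intro e n
    have h3 := (mm_bounds r e n).1
    have h4 : sz r e n ≤ sz r e n ^ 6 := Nat.le_self_pow (by norm_num) _
    omega
  have h3 := sum_small r K l w fun e n h => (h2 e n).trans (h1 e n h)
  have h4 : ∑ t ∈ TT r K l, 2 ^ LL r t ≤ 2 ^ w * 2 ^ w := by
    have h5 : ∀ t ∈ TT r K l, 2 ^ LL r t ≤ 2 ^ w := by
      intro t ht
      rw [mem_TT] at ht
      have h6 := h1 _ _ ht.le
      refine Nat.pow_le_pow_right (by norm_num) ?_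
      unfold mm at h6
      unfold LL
      omega
    refine (sum_le_sum h5).trans ?_
    rw [sum_const, smul_eq_mul]
    refine Nat.mul_le_mul_right _ (card_small r _ w fun t ht => ?_)
    rw [mem_TT] at ht
    exact (h2 _ _).trans (h1 _ _ ht.le)
  have h5 : 2 ^ (2 * w + 1) = 2 ^ w * 2 ^ w + 2 ^ w * 2 ^ w := by
    rw [pow_succ, two_mul w, pow_add]
    ring
  omega

end

/-- the bound for the free coins -/
noncomputable def bb (δ : ℝ) (m₀ l : ℕ) : ℝ :=
  if m₀ ≤ l then 2 * (2 : ℝ) ^ (-((l : ℝ) ^ δ)) else 1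

theorem bb_nonneg (δ : ℝ) (m₀ l : ℕ) : 0 ≤ bb δ m₀ l := by
  unfold bb
  split_ifs
  · positivity
  · exact zero_le_one

theorem bb_spec {ε : ℕ → ℝ} (hε : ∀ n, 0 ≤ ε n) {δ : ℝ} (hδ : 0 < δ) {m₀ : ℕ}
    (hm : ∀ m : ℕ, m₀ ≤ m → 1 / 2 - ε m < (2 : ℝ) ^ (-((m : ℝ) ^ δ))) (l m : ℕ) (h : l ≤ m) :
    1 - 2 * ε m ≤ bb δ m₀ l := by
  unfold bb
  split_ifs with h1
  · have h2 := hm m (h1.trans h)
    have h3 : (2 : ℝ) ^ (-((m : ℝ) ^ δ)) ≤ (2 : ℝ) ^ (-((l : ℝ) ^ δ)) := by
      apply Real.rpow_le_rpow_of_exponent_le (by norm_num)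
      have h4 : (l : ℝ) ≤ m := by exact_mod_cast h
      have := Real.rpow_le_rpow (Nat.cast_nonneg l) h4 hδ.le
      linarith
    linarith
  · have := hε m
    linarith

/-- the root -/
noncomputable def ww (K l : ℕ) : ℕ := ⌊(l : ℝ) ^ (1 / (K : ℝ))⌋₊

theorem ww_spec {K : ℕ} (hK : 1 ≤ K) (l m : ℕ) (h : m ^ K ≤ l) : m ≤ ww K l := by
  unfold ww
  rw [Nat.le_floor_iff (by positivity)]
  have h1 : ((m : ℝ)) ^ (K : ℝ) ≤ l := by
    rw [Real.rpow_natCast]
    exact_mod_cast h
  have hK0 : (0 : ℝ) < K := by exact_mod_cast hK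
  calc (m : ℝ) = ((m : ℝ) ^ (K : ℝ)) ^ (1 / (K : ℝ)) := by
        rw [← Real.rpow_mul (Nat.cast_nonneg m), mul_one_div_cancel hK0.ne', Real.rpow_one]
    _ ≤ _ := Real.rpow_le_rpow (by positivity) h1 (by positivity)

theorem bb_sum {δ : ℝ} (hδ : 0 < δ) (m₀ K : ℕ) (hK : 2 / δ ≤ K) :
    Summable fun l : ℕ => ((2 ^ (2 * ww K l + 1) : ℕ) : ℝ) * bb δ m₀ l := by
  have hK0 : (0 : ℝ) < K := lt_of_lt_of_le (by positivity) hK
  have hKd : 1 / (K : ℝ) ≤ δ / 2 := by
    rw [div_le_iff₀ hδ] at hK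
    rw [div_le_div_iff₀ hK0 (by norm_num)]
    linarith
  have hl2 : 0 < Real.log 2 := Real.log_pos (by norm_num)
  set C : ℝ := 1 / (δ / 2) / Real.log 2 with hC
  have hC0 : 0 < C := by positivity
  have htend : Tendsto (fun l : ℕ => (l : ℝ) ^ (δ / 2)) atTop atTop :=
    (tendsto_rpow_atTop (by positivity)).comp tendsto_natCast_atTop_atTop
  have hev : ∀ᶠ l : ℕ in atTop, ((2 ^ (2 * ww K l + 1) : ℕ) : ℝ) * bb δ m₀ l ≤
      1 / (l : ℝ) ^ 2 := by
    filter_upwards [htend.eventually_ge_atTop (4 + 2 * C), eventually_ge_atTop (m₀ + 1)]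
      with l hl hlm
    set y : ℝ := (l : ℝ) ^ (δ / 2) with hy
    have hl1 : (1 : ℝ) ≤ l := by exact_mod_cast (by omega : 1 ≤ l)
    have hl0 : (0 : ℝ) < l := by linarith
    have hlog : Real.logb 2 l ≤ C * y := by
      have h1 := Real.log_le_rpow_div hl0.le (show 0 < δ / 2 by positivity)
      rw [← hy] at h1
      unfold Real.logb
      rw [hC, div_le_iff₀ hl2]
      calc Real.log l ≤ y / (δ / 2) := h1
        _ = 1 / (δ / 2) / Real.log 2 * y * Real.log 2 := by field_simp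
    have hw : ((2 * ww K l + 1 : ℕ) : ℝ) ≤ 2 * y + 1 := by
      have h1 : ((ww K l : ℕ) : ℝ) ≤ (l : ℝ) ^ (1 / (K : ℝ)) := Nat.floor_le (by positivity)
      have h2 : (l : ℝ) ^ (1 / (K : ℝ)) ≤ y := Real.rpow_le_rpow_of_exponent_le hl1 hKd
      push_cast
      linarith
    have hyy : (l : ℝ) ^ δ = y * y := by
      rw [hy, ← Real.rpow_add hl0]
      congr 1
      ring
    unfold bb
    rw [if_pos (by omega), hyy]
    push_cast
    rw [← Real.rpow_natCast]
    calc (2 : ℝ) ^ (((2 * ww K l + 1 : ℕ) : ℝ)) * (2 * (2 : ℝ) ^ (-(y * y)))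
        ≤ (2 : ℝ) ^ (2 * y + 1) * (2 * (2 : ℝ) ^ (-(y * y))) :=
          mul_le_mul_of_nonneg_right (Real.rpow_le_rpow_of_exponent_le (by norm_num) hw)
            (by positivity)
      _ = (2 : ℝ) ^ (2 * y + 1 + (1 + -(y * y))) := by
          rw [Real.rpow_add (by norm_num) (2 * y + 1), Real.rpow_add (by norm_num) 1,
            Real.rpow_one]
      _ ≤ (2 : ℝ) ^ (-(2 * Real.logb 2 l)) := by
          apply Real.rpow_le_rpow_of_exponent_le (by norm_num)
          nlinarith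
      _ = 1 / (l : ℝ) ^ 2 := by
          have h3 : -(2 * Real.logb 2 l) = Real.logb 2 l * (-2) := by ring
          rw [h3, Real.rpow_mul (by norm_num), Real.rpow_logb (by norm_num) (by norm_num) hl0,
            Real.rpow_neg hl0.le, one_div]
          norm_num
  refine summable_of_isBigO_nat (g := fun l : ℕ => 1 / (l : ℝ) ^ 2)
    (Real.summable_one_div_nat_pow.2 (by norm_num)) (Asymptotics.IsBigO.of_bound 1 ?_)
  filter_upwards [hev] with l hl
  rw [one_mul, Real.norm_of_nonneg (mul_nonneg (by positivity) (bb_nonneg _ _ _)),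
    Real.norm_of_nonneg (by positivity)]
  exact hl

/-- **The negative half.** -/
theorem neg {ε : ℕ → ℝ} (hε : ∀ n, 0 ≤ ε n)
    (h : ¬ ∀ δ : ℝ, 0 < δ → ∃ᶠ m : ℕ in atTop, (2 : ℝ) ^ (-((m : ℝ) ^ δ)) ≤ 1 / 2 - ε m) :
    ∃ μ : Measure Oracle, IsProbabilityMeasure μ ∧ Biased ε μ ∧
      ∀ᵐ A ∂μ, ∀ L, InNTime Pol A L → IsPNP A L := by
  push Not at h
  obtain ⟨δ, hδ, h⟩ := h
  obtain ⟨m₀, hm⟩ := eventually_atTop.1 h
  obtain ⟨u, hu⟩ := exists_often
  choose rd hrd using cert_local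
  obtain ⟨K, hK⟩ := exists_nat_ge (2 / δ)
  have hK1 : 1 ≤ K := by
    have h1 : (0 : ℝ) < K := lt_of_lt_of_le (by positivity) hK
    exact_mod_cast h1
  set r : ℕ → Polynomial ℕ := fun e => rd (u e).1 (u e).2 with hr
  set Q : ℕ × List Bool → Oracle → Prop := fun t A =>
    ∃ w : List Bool, w.length ≤ 2 ^ (u t.1).2.eval t.2.length ∧
      (u t.1).1.out A (pairBits w t.2) = some [true] with hQ
  have hcert : ∀ (t : ℕ × List Bool) (A : Oracle), Q t A → ∃ U : Finset (List Bool),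
      U.card ≤ 2 ^ (r t.1).eval t.2.length ∧ ∀ A' : Oracle, (∀ u ∈ U, A' u = A u) → Q t A' :=
    fun t A h => hrd (u t.1).1 (u t.1).2 t.2 A h
  obtain ⟨μ, h1, h2, h3⟩ := (job r K Q hcert).coded hε (bb_nonneg δ m₀) (bb_spec hε hδ hm)
    (c := fun l => 2 ^ (2 * ww K l + 1))
    (fun l => card_imp r K l _ (ww_spec hK1 l)) (bb_sum hδ m₀ K hK)
  refine ⟨μ, h1, h2, ?_⟩
  filter_upwards [h3] with A hA
  obtain ⟨l₀, hl₀⟩ := hA
  rintro L ⟨V, ⟨M, hM⟩, q, _, hV⟩
  obtain ⟨e, he0, he⟩ := hu (M, q) l₀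
  have h4 := isPNP_of_code (RR K) (pp r) A e
  have h5 : L = {x | Z (NN (pp r)) (cdN (RR K) (pp r)) (e, x) A % 2 = 1} := by
    ext x
    rw [hV x, Set.mem_ofPred_eq]
    have h6 : Q (e, x) A ↔ Z (NN (pp r)) (cdN (RR K) (pp r)) (e, x) A % 2 = 1 := by
      refine hl₀ (e, x) ?_
      show l₀ ≤ lenp r K e x.length
      unfold lenp mm
      omega
    rw [← h6, hQ]
    simp only [he, hM, Option.some.injEq]
  rw [h5]
  exact h4

end Pool.Agent.TH755.BN
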