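import Pool.Agent.TH755.BN.Pos
import Pool.Agent.TH755.BN.Neg
import Pool.Agent.TH755.BL.Cls
import Pool.Agent.TH93.LN.InclB

/-!
# Polynomial space with advice is given by the strings of polynomial length
-/

set_option autoImplicit false

namespace Pool.Agent.TH755.BN

open Pool.Agent.NPC Pool.Agent.H620R2.Gauge Finset MeasureTheory Filter
open Pool.Agent.W900.BC Pool.Agent.TH93.LN Pool.Agent.TH678.PN
open Pool.Agent.H622R2.Exp (InTime InNTime Lin Pol)
open Pool.Agent.TH755.BL (poly_sub)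

/-- a list of functionals for polynomial space -/
noncomputable def PsiP (e : ℕ) (A : Oracle) (y : List Bool) : Prop :=
  accD (exists_salg.choose e) A y

theorem accD_iff {M : SAlg} {A : Oracle} {y : List Bool} {L : Set (List Bool)}
    (h : ∃ s z, M.Reach A y s ∧ M.act (pairBits y s) = true :: z ∧ (y ∈ L ↔ z = [true])) :
    y ∈ L ↔ accD M A y := by
  obtain ⟨s, z, h1, h2, h3⟩ := h
  rw [h3]
  constructor
  · rintro rfl
    exact ⟨s, h1, h2⟩
  · rintro ⟨s', h4, h5⟩
    have h6 := halt_unique h1 h4 (not_asks h2) (not_asks h5)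
    rw [← h6, h2] at h5
    exact (List.cons.inj h5).2

theorem pspace_local {A : Oracle} {L : Set (List Bool)} (h : WithAdvice (IsPSPACE A) L) :
    LocalPoly PsiP A L := by
  obtain ⟨L', g, p, ⟨M, p', hM⟩, hg, hL⟩ := h
  obtain ⟨e, he⟩ := exists_salg.choose_spec M
  obtain ⟨b, hb⟩ := (Pool.Agent.H622R2.poly_of_polyTime M.act_poly).sz_le
  set Y : Polynomial ℕ := Polynomial.C 2 * Polynomial.X + 1 + p with hY
  set W : Polynomial ℕ := b.comp (Polynomial.C 4 * (Polynomial.C 2 * Y + 1 + p'.comp Y) + 1) with hW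
  obtain ⟨c, hc⟩ := exists_power W
  refine ⟨e, c, g, fun δ hδ => ?_, fun x => ?_⟩
  · filter_upwards [poly_sub p hδ] with n hn
    refine le_trans ?_ hn
    exact_mod_cast hg n
  · rw [hL x]
    set y := pairBits x (g x.length) with hy
    rw [accD_iff (hM y).2]
    unfold PsiP
    rw [he]
    have hylen : y.length ≤ Y.eval x.length := by
      rw [hy, length_pairBits, hY]
      simp only [Polynomial.eval_add, Polynomial.eval_mul, Polynomial.eval_C, Polynomial.eval_X,
        Polynomial.eval_one]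
      have := hg x.length
      omega
    have hq : ∀ s, M.Reach A y s → ∀ q, M.act (pairBits y s) = false :: q →
        q.length ≤ (x.length + c) ^ c := by
      intro s hs q hq
      refine le_trans ?_ (hc x.length)
      have h1 := hb (pairBits y s)
      rw [hq] at h1
      have h2 := length_lt_sz (false :: q)
      rw [List.length_cons] at h2
      have h3 : Pool.Agent.NPC.sz (pairBits y s) ≤
          4 * (2 * Y.eval x.length + 1 + p'.eval (Y.eval x.length)) + 1 := by
        have h4 := sz_listBool_le (pairBits y s)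
        have h5 := (hM y).1 s hs
        have h6 := eval_mono p' hylen
        rw [length_pairBits] at h4
        omega
      have h4 := eval_mono b h3
      rw [hW]
      simp only [Polynomial.eval_comp, Polynomial.eval_add, Polynomial.eval_mul, Polynomial.eval_C,
        Polynomial.eval_one]
      omega
    unfold accD
    refine exists_congr fun s => ?_
    rw [reach_cut hq]

/-- the part for `P^NP` and `NEXP` -/
theorem main {ε : ℕ → ℝ} (hε : ∀ n, 0 ≤ ε n) :
    ((∀ δ : ℝ, 0 < δ → ∃ᶠ m : ℕ in atTop, (2 : ℝ) ^ (-((m : ℝ) ^ δ)) ≤ 1 / 2 - ε m) →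
      ∀ μ : Measure Oracle, IsProbabilityMeasure μ → Biased ε μ →
        ∀ Ψ : ℕ → Oracle → List Bool → Prop, ∀ᵐ A ∂μ, ∃ L, InTime Lin A L ∧ ¬ IsPNP A L ∧
          ¬ WithAdvice (IsPSPACE A) L ∧ ¬ LocalPoly Ψ A L) ∧
    ((¬ ∀ δ : ℝ, 0 < δ → ∃ᶠ m : ℕ in atTop, (2 : ℝ) ^ (-((m : ℝ) ^ δ)) ≤ 1 / 2 - ε m) →
      ∃ μ : Measure Oracle, IsProbabilityMeasure μ ∧ Biased ε μ ∧
        ∀ᵐ A ∂μ, ∀ L, IsPNP A L ↔ InNTime Pol A L) := by
  refine ⟨fun h μ hμ hb Ψ => ?_, fun h => ?_⟩
  · filter_upwards [pos h hb Ψ, pos h hb PsiP] with A h1 h2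
    refine ⟨_, h1.1, fun h3 => ?_, fun h3 => h2.2 (pspace_local h3), h1.2⟩
    exact h2.2 (pspace_local (h3.isPH.isPSPACE).withAdvice)
  · obtain ⟨μ, h1, h2, h3⟩ := neg hε h
    refine ⟨μ, h1, h2, ?_⟩
    filter_upwards [h3] with A hA L
    exact ⟨fun h => h.isPH.isPSPACE.inTime.isNTime, hA L⟩

end Pool.Agent.TH755.BN
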