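import Pool.Agent.TH755.BL.Law
import Pool.Agent.TH678.PN.Dec

/-!
# Nondeterministic questions coded by largest marked numbers, by an adversary who controls most of
the coins
-/

set_option autoImplicit false

namespace Pool.Agent.TH755.BN

open Pool.Agent.NPC Pool.Agent.H620R2.Gauge Finset MeasureTheory Filter
open Pool.Agent.W900.BC Pool.Agent.TH755.BE
open Pool.Agent.TH755.BL (exists_top)
open Pool.Agent.TH678.PN (Z Z_eq)

/-- The coding theorem for strategies and sets of strings that should be controlled. -/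
theorem coded_gen {adv : List Bool → Oracle → Bool} (hloc : Loc adv)
    {Y : ℕ → Oracle → Finset (List Bool)}
    (hY : ∀ (l : ℕ) (A A' : Oracle), (∀ y : List Bool, y.length < l → A y = A' y) → Y l A = Y l A')
    (hYl : ∀ (l : ℕ) (A : Oracle), ∀ y ∈ Y l A, l ≤ y.length)
    {ε : ℕ → ℝ} (hε : ∀ n, 0 ≤ ε n) {b : ℕ → ℝ} (hb0 : ∀ l, 0 ≤ b l)
    (hb : ∀ l m, l ≤ m → 1 - 2 * ε m ≤ b l) {c : ℕ → ℕ} (hc : ∀ l A, (Y l A).card ≤ c l)
    (hsum : Summable fun l => (c l : ℝ) * b l) :
    ∃ μ : Measure Oracle, IsProbabilityMeasure μ ∧ Biased ε μ ∧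
      ∀ᵐ A ∂μ, ∀ᶠ l in atTop, ∀ y ∈ Y l A, A y = adv y A := by
  have hpre : ∀ {N : ℕ} {A B : Oracle}, pre N A = pre N B → ∀ z : List Bool, idx z < N →
      A z = B z := by
    intro N A B hAB z hz
    have h4 := congrFun hAB ⟨idx z, hz⟩
    unfold pre at h4
    simp only [str_idx] at h4
    exact h4
  have hmeas : ∀ l, MeasurableSet {A | ¬ ∀ y ∈ Y l A, A y = adv y A} := by
    intro l
    have h1 : {A | ¬ ∀ y ∈ Y l A, A y = adv y A} = ⋃ Z : Finset (List Bool), ({A | Y l A = Z} ∩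
        ⋃ y ∈ Z, {A : Oracle | A y ≠ adv y A}) := by
      ext A
      simp only [Set.mem_ofPred_eq, Set.mem_iUnion, Set.mem_inter_iff]
      constructor
      · intro h
        push Not at h
        obtain ⟨y, hy, hne⟩ := h
        exact ⟨Y l A, rfl, y, hy, hne⟩
      · rintro ⟨Z, h2, y, hy, hne⟩ h
        rw [← h2] at hy
        exact hne (h y hy)
    rw [h1]
    refine MeasurableSet.iUnion fun Z => MeasurableSet.inter ?_ ?_
    · apply Dep.measurable (N := 2 ^ (l + 1))
      intro A B hAB hA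
      show Y l B = Z
      rw [← hY l A B fun y hy => hpre hAB y (lt_of_lt_of_le
        (Nat.lt_of_succ_lt (idx_lt y)) (Nat.pow_le_pow_right (by norm_num) (by omega)))]
      exact hA
    · refine MeasurableSet.iUnion fun y => MeasurableSet.iUnion fun _ => ?_
      apply Dep.measurable (N := 2 ^ (y.length + 1))
      intro A B hAB hA
      have h2 : adv y A = adv y B := hloc y A B fun z hz =>
        hpre hAB z (lt_of_lt_of_le (Nat.lt_of_succ_lt (idx_lt z))
          (Nat.pow_le_pow_right (by norm_num) (by omega)))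
      have h3 : A y = B y := hpre hAB y (Nat.lt_of_succ_lt (idx_lt y))
      intro h4
      apply hA
      rw [h2, h3, h4]
  set q : List Bool → ℝ := fun z => min 1 (2 * ε z.length) with hq
  have h0 : ∀ z, 0 ≤ q z := fun z => le_min zero_le_one (by have := hε z.length; linarith)
  have h1 : ∀ z, q z ≤ 1 := fun z => min_le_left _ _
  have hqε : ∀ z, q z / 2 ≤ ε z.length := by
    intro z
    have : q z ≤ 2 * ε z.length := min_le_right _ _
    linarith
  have hprob := noiseM_prob h0 h1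
  refine ⟨(noiseM q).map (Psi adv), Measure.isProbabilityMeasure_map
    (measurable_Psi hloc).aemeasurable, biased_Psi h0 h1 hloc hqε, ?_⟩
  set μ := (noiseM q).map (Psi adv) with hμ
  have hbad : ∀ l, μ {A | ¬ ∀ y ∈ Y l A, A y = adv y A} ≤ ENNReal.ofReal ((c l : ℝ) * b l) := by
    intro l
    rw [hμ, Measure.map_apply (measurable_Psi hloc) (hmeas l)]
    have hsub : Psi adv ⁻¹' {A | ¬ ∀ y ∈ Y l A, A y = adv y A} ⊆
        {ρ | ∃ y ∈ Y l (Psi adv ρ), (ρ y).1 = false} := by
      intro ρ hρ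
      by_contra hc
      refine hρ fun y hy => ?_
      have h2 : (ρ y).1 = true := by
        by_contra h2
        exact hc ⟨y, hy, Bool.eq_false_iff.2 h2⟩
      rw [Psi_eq hloc]
      unfold vl
      rw [if_pos h2]
    refine (measure_mono hsub).trans ?_
    have hagree : ∀ ρ ρ' : Noise, (∀ z ∈ firsts (2 ^ l - 1), ρ z = ρ' z) →
        ∀ y : List Bool, y.length < l → Psi adv ρ y = Psi adv ρ' y :=
      fun ρ ρ' h2 y hy => Psi_dep_firsts hloc h2 (mem_firsts_len.2 hy)
    refine cond_bound h0 h1 (firsts (2 ^ l - 1)) (fun ρ => Y l (Psi adv ρ))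
      (fun ρ ρ' h2 => hY l _ _ (hagree ρ ρ' h2)) (fun ρ y hy => ?_)
      (fun ρ y hy => ?_) (fun ρ => hc l _)
    · rw [mem_firsts_len, not_lt]
      exact hYl l _ y hy
    · have h3 := hb l y.length (hYl l _ y hy)
      rw [hq]
      dsimp only
      rcases min_cases 1 (2 * ε y.length) with h4 | h4
      · rw [h4.1]
        have := hb0 l
        linarith
      · rw [h4.1]
        exact h3
  have hae := ae_finite_setOfPred_mem (μ := μ) (s := fun l => {A | ¬ ∀ y ∈ Y l A, A y = adv y A})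
    (ne_top_of_le_ne_top hsum.tsum_ofReal_ne_top (ENNReal.tsum_le_tsum hbad))
  filter_upwards [hae] with A hA
  have h2 : ∀ᶠ l in atTop, l ∉ {l | ¬ ∀ y ∈ Y l A, A y = adv y A} := by
    rw [← Nat.cofinite_eq_atTop]
    exact hA.eventually_cofinite_notMem
  filter_upwards [h2] with l hl
  by_contra hc
  exact hl hc

/-- Questions with certificates, coded by marked numbers. -/
structure PJ : Type where
  /-- the number of the digits of the marks -/
  L : ℕ × List Bool → ℕ
  /-- the code strings -/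
  cd : ℕ × List Bool → ℕ → List Bool
  /-- their lengths -/
  len : ℕ × List Bool → ℕ
  /-- the lengths are right -/
  length_cd : ∀ t v, v < 2 ^ L t → (cd t v).length = len t
  /-- the code strings are different -/
  inj : ∀ t t' v v', v < 2 ^ L t → v' < 2 ^ L t' → cd t v = cd t' v' → t = t' ∧ v = v'
  /-- the questions coded by strings of length `l` -/
  T : ℕ → Finset (ℕ × List Bool)
  /-- the questions coded by strings of length `l` -/
  mem_T : ∀ l t, t ∈ T l ↔ len t = l
  /-- the questions -/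
  Q : ℕ × List Bool → Oracle → Prop
  /-- the number of strings in the certificates -/
  p : ℕ × List Bool → ℕ
  /-- the certificates -/
  cert : ∀ (t : ℕ × List Bool) (A : Oracle), Q t A → ∃ U : Finset (List Bool),
    U.card ≤ p t ∧ ∀ A' : Oracle, (∀ u ∈ U, A' u = A u) → Q t A'
  /-- the number of the digits fixed in stage `l` -/
  κ : ℕ → ℕ
  /-- there are enough possibilities -/
  hκ : ∀ l, (T l).Nonempty → (T l).card + 2 ≤ 2 ^ κ l
  /-- there is room -/
  room : ∀ t, ∑ j ∈ range (len t + 1), κ j ≤ L t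
  /-- there is space -/
  space : ∀ t, 2 * (∑ j ∈ range (len t + 1), ∑ s ∈ T j, p s) + 1 <
    2 ^ (L t - ∑ j ∈ range (len t + 1), κ j)

variable (X : PJ)

/-- the number of the digits fixed before stage `l` -/
def PJ.S (l : ℕ) : ℕ := ∑ j ∈ range l, X.κ j

theorem PJ.S_succ (l : ℕ) : X.S (l + 1) = X.S l + X.κ l := sum_range_succ _ _

theorem PJ.S_mono {l l' : ℕ} (h : l ≤ l') : X.S l ≤ X.S l' :=
  sum_le_sum_of_subset (range_subset_range.2 h)

theorem PJ.S_le {l : ℕ} {t : ℕ × List Bool} (h : l ≤ X.len t) : X.S (l + 1) ≤ X.L t :=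
  (X.S_mono (by omega)).trans (X.room t)

theorem div_shift {v L S k : ℕ} (h : S + k ≤ L) :
    v / 2 ^ (L - S) = v / 2 ^ (L - (S + k)) / 2 ^ k := by
  rw [Nat.div_div_eq_div_mul, ← pow_add]
  congr 2
  omega

open Classical in
/-- the certificate -/
noncomputable def PJ.U (t : ℕ × List Bool) (A : Oracle) : Finset (List Bool) :=
  if h : X.Q t A then (X.cert t A h).choose else ∅

theorem PJ.card_U (t : ℕ × List Bool) (A : Oracle) : (X.U t A).card ≤ X.p t := by
  unfold PJ.U
  split_ifs with h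
  · exact (X.cert t A h).choose_spec.1
  · simp

theorem PJ.U_spec {t : ℕ × List Bool} {A : Oracle} (h : X.Q t A) (A' : Oracle)
    (hA : ∀ u ∈ X.U t A, A' u = A u) : X.Q t A' := by
  unfold PJ.U at hA
  rw [dif_pos h] at hA
  exact (X.cert t A h).choose_spec.2 A' hA

open Classical in
/-- the number of questions with the answer yes -/
noncomputable def PJ.yes (l : ℕ) (B : Oracle) : ℕ := ((X.T l).filter fun t => X.Q t B).card

/-- the states: an oracle, the frozen strings, and the digits fixed before -/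
abbrev St : Type := Oracle × Finset (List Bool) × ℕ

/-- the possible oracles -/
def PJ.cls (l : ℕ) (A : Oracle) (s : St) (P : ℕ) : Set Oracle :=
  {B | (∀ y : List Bool, y.length < l → B y = A y) ∧
    (∀ y ∈ s.2.1, l ≤ y.length → B y = s.1 y) ∧
    ∀ t, l ≤ X.len t → ∀ v < 2 ^ X.L t, B (X.cd t v) = true →
      v / 2 ^ (X.L t - X.S (l + 1)) ≤ P}

theorem PJ.cls_congr {l : ℕ} {A A' : Oracle} (h : ∀ y : List Bool, y.length < l → A y = A' y)
    (s : St) (P : ℕ) : X.cls l A s P = X.cls l A' s P := by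
  ext B
  constructor
  · rintro ⟨h1, h2⟩
    exact ⟨fun y hy => (h1 y hy).trans (h y hy), h2⟩
  · rintro ⟨h1, h2⟩
    exact ⟨fun y hy => (h1 y hy).trans (h y hy).symm, h2⟩

/-- the frozen marks are small -/
def PJ.Inv (l : ℕ) (s : St) : Prop :=
  ∀ t v, v < 2 ^ X.L t → X.cd t v ∈ s.2.1 → l ≤ X.len t → s.1 (X.cd t v) = true →
    v / 2 ^ (X.L t - X.S l) < s.2.2

theorem PJ.Inv.next {X : PJ} {l : ℕ} {s : St} (h : X.Inv l s) {t : ℕ × List Bool} {v : ℕ}
    (hv : v < 2 ^ X.L t) (h1 : X.cd t v ∈ s.2.1) (h2 : l ≤ X.len t)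
    (h3 : s.1 (X.cd t v) = true) :
    v / 2 ^ (X.L t - X.S (l + 1)) < s.2.2 * 2 ^ X.κ l := by
  have h4 := h t v hv h1 h2 h3
  have h5 := X.S_le h2
  rw [X.S_succ] at h5
  rw [div_shift h5, Nat.div_lt_iff_lt_mul (by positivity)] at h4
  rw [X.S_succ]
  exact h4

theorem PJ.cls_ne {l : ℕ} {s : St} (h : X.Inv l s) (A : Oracle) {P : ℕ}
    (hP : s.2.2 * 2 ^ X.κ l ≤ P) : (X.cls l A s P).Nonempty := by
  classical
  refine ⟨fun y => if y.length < l then A y else if y ∈ s.2.1 then s.1 y else false,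
    fun y hy => ?_, fun y h1 hy => ?_, fun t ht v hv h1 => ?_⟩
  · simp only [if_pos hy]
  · simp only [if_neg (not_lt.2 hy), if_pos h1]
  · have h2 : ¬ (X.cd t v).length < l := by rw [X.length_cd t v hv]; omega
    simp only [if_neg h2] at h1
    by_cases h3 : X.cd t v ∈ s.2.1
    · rw [if_pos h3] at h1
      exact (h.next hv h3 ht h1).le.trans hP
    · rw [if_neg h3] at h1
      exact absurd h1 (by simp)

theorem PJ.exists_best (l : ℕ) (S : Set Oracle) (hS : S.Nonempty) :
    ∃ B ∈ S, ∀ B' ∈ S, X.yes l B' ≤ X.yes l B := by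
  classical
  exact exists_top S hS (X.yes l) (X.T l).card fun B _ => card_le_card (filter_subset _ _)

open Classical in
/-- the best oracle -/
noncomputable def PJ.best (l : ℕ) (S : Set Oracle) : Oracle :=
  if h : S.Nonempty then (X.exists_best l S h).choose else fun _ => false

theorem PJ.best_spec (l : ℕ) {S : Set Oracle} (h : S.Nonempty) :
    X.best l S ∈ S ∧ ∀ B' ∈ S, X.yes l B' ≤ X.yes l (X.best l S) := by
  unfold PJ.best
  rw [dif_pos h]
  exact (X.exists_best l S h).choose_spec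

/-- the best oracle with the digits `c` -/
noncomputable def PJ.bst (l : ℕ) (A : Oracle) (s : St) (c : ℕ) : Oracle :=
  X.best l (X.cls l A s (s.2.2 * 2 ^ X.κ l + c))

open Classical in
/-- the digits chosen in stage `l` -/
noncomputable def PJ.pick (l : ℕ) (A : Oracle) (s : St) : ℕ :=
  if h : ∃ c, 1 ≤ c ∧ c < 2 ^ X.κ l ∧ X.yes l (X.bst l A s c) ≤ X.yes l (X.bst l A s (c - 1)) then
    h.choose else 0

theorem PJ.pick_lt (l : ℕ) (A : Oracle) (s : St) : X.pick l A s < 2 ^ X.κ l := by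
  unfold PJ.pick
  split_ifs with h
  · exact h.choose_spec.2.1
  · positivity

theorem PJ.yes_le (l : ℕ) (B : Oracle) : X.yes l B ≤ (X.T l).card := by
  classical
  exact card_le_card (filter_subset _ _)

theorem PJ.pick_spec {l : ℕ} (hT : (X.T l).Nonempty) (A : Oracle) (s : St) :
    1 ≤ X.pick l A s ∧
      X.yes l (X.bst l A s (X.pick l A s)) ≤ X.yes l (X.bst l A s (X.pick l A s - 1)) := by
  have hex : ∃ c, 1 ≤ c ∧ c < 2 ^ X.κ l ∧
      X.yes l (X.bst l A s c) ≤ X.yes l (X.bst l A s (c - 1)) := by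
    by_contra hcon
    push Not at hcon
    have h1 : ∀ c, c < 2 ^ X.κ l → c ≤ X.yes l (X.bst l A s c) := by
      intro c
      induction c with
      | zero => intro _; exact Nat.zero_le _
      | succ c ih =>
        intro hc
        have h2 := ih (by omega)
        have h3 := hcon (c + 1) (by omega) hc
        rw [Nat.add_sub_cancel] at h3
        omega
    have h2 := X.hκ l hT
    have h3 := h1 (2 ^ X.κ l - 1) (by omega)
    have h4 := X.yes_le l (X.bst l A s (2 ^ X.κ l - 1))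
    omega
  unfold PJ.pick
  rw [dif_pos hex]
  exact ⟨hex.choose_spec.1, hex.choose_spec.2.2⟩

open Classical in
/-- the states -/
noncomputable def PJ.st : ℕ → Oracle → St
  | 0, _ => (fun _ => false, ∅, 0)
  | l + 1, A => (X.bst l A (PJ.st l A) (X.pick l A (PJ.st l A) - 1), (PJ.st l A).2.1 ∪
      (X.T l).biUnion (fun t => X.U t (X.bst l A (PJ.st l A) (X.pick l A (PJ.st l A) - 1))),
      (PJ.st l A).2.2 * 2 ^ X.κ l + X.pick l A (PJ.st l A))

open Classical in
theorem PJ.st_succ (l : ℕ) (A : Oracle) : X.st (l + 1) A =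
    (X.bst l A (X.st l A) (X.pick l A (X.st l A) - 1), (X.st l A).2.1 ∪
      (X.T l).biUnion (fun t => X.U t (X.bst l A (X.st l A) (X.pick l A (X.st l A) - 1))),
      (X.st l A).2.2 * 2 ^ X.κ l + X.pick l A (X.st l A)) := rfl

theorem PJ.bst_congr {l : ℕ} {A A' : Oracle} (h : ∀ y : List Bool, y.length < l → A y = A' y)
    (s : St) (c : ℕ) : X.bst l A s c = X.bst l A' s c := by
  unfold PJ.bst
  rw [X.cls_congr h]

theorem PJ.pick_congr {l : ℕ} {A A' : Oracle} (h : ∀ y : List Bool, y.length < l → A y = A' y)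
    (s : St) : X.pick l A s = X.pick l A' s := by
  have h1 : X.bst l A s = X.bst l A' s := funext fun c => X.bst_congr h s c
  unfold PJ.pick
  rw [h1]

theorem PJ.st_congr : ∀ (l : ℕ) {A A' : Oracle}, (∀ y : List Bool, y.length < l → A y = A' y) →
    X.st (l + 1) A = X.st (l + 1) A'
  | 0, A, A', h => by
    have h1 : X.st 0 A = X.st 0 A' := rfl
    rw [X.st_succ 0 A, X.st_succ 0 A', h1, X.pick_congr h, X.bst_congr h]
  | l + 1, A, A', h => by
    have h1 := PJ.st_congr l (A := A) (A' := A') fun y hy => h y (by omega)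
    rw [X.st_succ (l + 1) A, X.st_succ (l + 1) A', h1, X.pick_congr h, X.bst_congr h]

/-- the oracle at stage `l` -/
noncomputable def PJ.B (l : ℕ) (A : Oracle) : Oracle := (X.st (l + 1) A).1

/-- the frozen strings at stage `l` -/
noncomputable def PJ.F (l : ℕ) (A : Oracle) : Finset (List Bool) := (X.st (l + 1) A).2.1

/-- the digits fixed at stage `l` and before -/
noncomputable def PJ.P (l : ℕ) (A : Oracle) : ℕ := (X.st (l + 1) A).2.2

theorem PJ.inv : ∀ (l : ℕ) (A : Oracle), X.Inv l (X.st l A)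
  | 0, A => by
    intro t v _ h
    simp [PJ.st] at h
  | l + 1, A => by
    classical
    have ih := PJ.inv l A
    have hB := (X.best_spec l (X.cls_ne ih A (P := (X.st l A).2.2 * 2 ^ X.κ l +
      (X.pick l A (X.st l A) - 1)) (by omega))).1
    intro t v hv h1 h2 h3
    rw [X.st_succ] at h1 h3 ⊢
    simp only at h1 h3 ⊢
    rw [mem_union] at h1
    have hlt : l ≤ X.len t := by omega
    rcases h1 with h1 | h1
    · have h4 : (X.st l A).1 (X.cd t v) = true := by
        rw [← hB.2.1 _ h1 (by rw [X.length_cd t v hv]; exact hlt)]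
        exact h3
      have h5 := ih.next hv h1 hlt h4
      omega
    · rw [mem_biUnion] at h1
      obtain ⟨s, hs, _⟩ := h1
      have h4 := (X.pick_spec ⟨s, hs⟩ A (X.st l A)).1
      have h5 := hB.2.2 t hlt v hv h3
      omega

theorem PJ.B_mem (l : ℕ) (A : Oracle) : X.B l A ∈ X.cls l A (X.st l A)
    ((X.st l A).2.2 * 2 ^ X.κ l + (X.pick l A (X.st l A) - 1)) :=
  (X.best_spec l (X.cls_ne (X.inv l A) A (by omega))).1

theorem PJ.B_max {l : ℕ} (hT : (X.T l).Nonempty) (A : Oracle) :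
    ∀ B' ∈ X.cls l A (X.st l A) (X.P l A), X.yes l B' ≤ X.yes l (X.B l A) := by
  intro B' hB'
  exact ((X.best_spec l (X.cls_ne (X.inv l A) A (P := (X.st l A).2.2 * 2 ^ X.κ l +
    X.pick l A (X.st l A)) (by omega))).2 B' hB').trans (X.pick_spec hT A (X.st l A)).2

open Classical in
theorem PJ.F_eq (l : ℕ) (A : Oracle) : X.F l A = (X.st l A).2.1 ∪
    (X.T l).biUnion fun t => X.U t (X.B l A) := rfl

theorem PJ.F_mono {l l' : ℕ} (h : l ≤ l') (A : Oracle) : X.F l A ⊆ X.F l' A := by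
  induction l', h using Nat.le_induction with
  | base => exact Subset.refl _
  | succ k _ ih =>
    refine ih.trans ?_
    rw [X.F_eq (k + 1)]
    exact subset_union_left

theorem PJ.B_step (l : ℕ) (A : Oracle) {y : List Bool} (hy : y ∈ X.F l A) (hl : l + 1 ≤ y.length) :
    X.B (l + 1) A y = X.B l A y :=
  (X.B_mem (l + 1) A).2.1 y hy hl

theorem PJ.B_eq {l l' : ℕ} (h : l ≤ l') (A : Oracle) {y : List Bool} (hy : y ∈ X.F l A)
    (hl : l' ≤ y.length) : X.B l' A y = X.B l A y := by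
  induction l', h using Nat.le_induction with
  | base => rfl
  | succ k hk ih =>
    rw [X.B_step k A (X.F_mono hk A hy) hl]
    exact ih (by omega)

theorem PJ.st_lt : ∀ (l : ℕ) (A : Oracle), (X.st l A).2.2 < 2 ^ X.S l
  | 0, A => by simp [PJ.st]
  | l + 1, A => by
    have h1 := PJ.st_lt l A
    have h2 := X.pick_lt l A (X.st l A)
    rw [X.st_succ, X.S_succ, pow_add]
    simp only
    have h3 : ((X.st l A).2.2 + 1) * 2 ^ X.κ l ≤ 2 ^ X.S l * 2 ^ X.κ l :=
      Nat.mul_le_mul_right _ h1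
    rw [add_mul, one_mul] at h3
    omega

theorem PJ.P_div {l l' : ℕ} (h : l ≤ l') (A : Oracle) :
    X.P l' A / 2 ^ (X.S (l' + 1) - X.S (l + 1)) = X.P l A := by
  induction l', h using Nat.le_induction with
  | base => simp
  | succ k hk ih =>
    have h1 : X.S (k + 1 + 1) - X.S (l + 1) = X.κ (k + 1) + (X.S (k + 1) - X.S (l + 1)) := by
      rw [X.S_succ (k + 1)]
      have := X.S_mono (show l + 1 ≤ k + 1 by omega)
      omega
    rw [h1, pow_add, ← Nat.div_div_eq_div_mul]
    have h2 : X.P (k + 1) A / 2 ^ X.κ (k + 1) = X.P k A := by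
      have h3 : X.P (k + 1) A = X.P k A * 2 ^ X.κ (k + 1) + X.pick (k + 1) A (X.st (k + 1) A) := rfl
      have h4 := X.pick_lt (k + 1) A (X.st (k + 1) A)
      rw [h3]
      apply Nat.div_eq_of_lt_le
      · omega
      · rw [add_mul, one_mul]
        omega
    rw [h2]
    exact ih

/-- the number of frozen strings -/
theorem PJ.card_F (l : ℕ) (A : Oracle) : (X.F l A).card ≤
    ∑ j ∈ range (l + 1), ∑ t ∈ X.T j, X.p t := by
  classical
  have h1 : ∀ k, (X.st k A).2.1.card ≤ ∑ j ∈ range k, ∑ t ∈ X.T j, X.p t := by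
    intro k
    induction k with
    | zero => simp [PJ.st]
    | succ k ih =>
      rw [sum_range_succ]
      refine (card_union_le _ _).trans (Nat.add_le_add ih ?_)
      exact card_biUnion_le.trans (sum_le_sum fun t _ => X.card_U t _)
  exact h1 (l + 1)

theorem PJ.exists_mark {l : ℕ} (A : Oracle) {t : ℕ × List Bool} (ht : t ∈ X.T l) :
    ∃ v, v < 2 ^ X.L t ∧ v / 2 ^ (X.L t - X.S (l + 1)) = X.P l A ∧
      (v % 2 = 1 ↔ X.Q t (X.B l A)) ∧ X.cd t v ∉ X.F l A := by
  classical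
  have hl : X.len t = l := (X.mem_T l t).1 ht
  have hsp := X.space t
  rw [hl] at hsp
  change _ < 2 ^ (X.L t - X.S (l + 1)) at hsp
  have hroom : X.S (l + 1) ≤ X.L t := X.S_le hl.ge
  have hcard := X.card_F l A
  have hPlt : X.P l A < 2 ^ X.S (l + 1) := X.st_lt (l + 1) A
  set m := X.L t - X.S (l + 1) with hm
  obtain ⟨k, hk⟩ : ∃ k, m = k + 1 := by
    refine ⟨m - 1, ?_⟩
    rcases Nat.eq_zero_or_pos m with h0 | h0
    · rw [h0, pow_zero] at hsp
      omega
    · omega
  rw [hk, pow_succ] at hsp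
  -- the parity
  obtain ⟨b, hb2, hb⟩ : ∃ b, b < 2 ∧ (b % 2 = 1 ↔ X.Q t (X.B l A)) := by
    by_cases hq : X.Q t (X.B l A)
    · exact ⟨1, by norm_num, by simp [hq]⟩
    · exact ⟨0, by norm_num, by simp [hq]⟩
  set f : ℕ → ℕ := fun j => X.P l A * 2 ^ m + (2 * j + b) with hf
  have hfj : ∀ j, j < 2 ^ k → 2 * j + b < 2 ^ m := by
    intro j hj
    rw [hk, pow_succ]
    omega
  have hflt : ∀ j, j < 2 ^ k → f j < 2 ^ X.L t := by
    intro j hj
    have h1 := hfj j hj
    have h2 : (X.P l A + 1) * 2 ^ m ≤ 2 ^ X.S (l + 1) * 2 ^ m := Nat.mul_le_mul_right _ hPlt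
    rw [add_mul, one_mul, ← pow_add] at h2
    have h3 : X.S (l + 1) + m = X.L t := by omega
    rw [h3] at h2
    show X.P l A * 2 ^ m + (2 * j + b) < _
    omega
  have hex : ∃ j, j < 2 ^ k ∧ X.cd t (f j) ∉ X.F l A := by
    by_contra hcon
    push Not at hcon
    have h1 : (range (2 ^ k)).card ≤ (X.F l A).card := by
      refine card_le_card_of_injOn (fun j => X.cd t (f j)) ?_ ?_
      · intro j hj
        rw [mem_coe, mem_range] at hj
        exact hcon j hj
      · intro j hj j' hj' h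
        rw [mem_coe, mem_range] at hj hj'
        have h2 := (X.inj t t _ _ (hflt j hj) (hflt j' hj') h).2
        have h3 : X.P l A * 2 ^ m + (2 * j + b) = X.P l A * 2 ^ m + (2 * j' + b) := h2
        omega
    rw [card_range] at h1
    omega
  obtain ⟨j, hj, hF⟩ := hex
  refine ⟨f j, hflt j hj, ?_, ?_, hF⟩
  · have h1 := hfj j hj
    apply Nat.div_eq_of_lt_le
    · show X.P l A * 2 ^ m ≤ X.P l A * 2 ^ m + (2 * j + b)
      omega
    · show X.P l A * 2 ^ m + (2 * j + b) < (X.P l A + 1) * 2 ^ m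
      rw [add_mul, one_mul]
      omega
  · rw [← hb]
    have h1 : f j % 2 = b % 2 := by
      show (X.P l A * 2 ^ m + (2 * j + b)) % 2 = _
      rw [hk, pow_succ, ← mul_assoc]
      omega
    rw [h1]

open Classical in
/-- the mark -/
noncomputable def PJ.top (l : ℕ) (A : Oracle) (t : ℕ × List Bool) : ℕ :=
  if h : ∃ v, v < 2 ^ X.L t ∧ v / 2 ^ (X.L t - X.S (l + 1)) = X.P l A ∧
      (v % 2 = 1 ↔ X.Q t (X.B l A)) ∧ X.cd t v ∉ X.F l A then h.choose else 0

theorem PJ.top_spec {l : ℕ} (A : Oracle) {t : ℕ × List Bool} (ht : t ∈ X.T l) :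
    X.top l A t < 2 ^ X.L t ∧ X.top l A t / 2 ^ (X.L t - X.S (l + 1)) = X.P l A ∧
      (X.top l A t % 2 = 1 ↔ X.Q t (X.B l A)) ∧ X.cd t (X.top l A t) ∉ X.F l A := by
  unfold PJ.top
  rw [dif_pos (X.exists_mark A ht)]
  exact (X.exists_mark A ht).choose_spec

theorem PJ.top_congr {l : ℕ} {A A' : Oracle} (h : ∀ y : List Bool, y.length < l → A y = A' y) :
    X.top l A = X.top l A' := by
  funext t
  unfold PJ.top PJ.P PJ.B PJ.F
  rw [X.st_congr l h]

open Classical in
/-- the strategy -/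
noncomputable def PJ.adv (z : List Bool) (A : Oracle) : Bool :=
  if z ∈ X.F z.length A then X.B z.length A z else
    decide (∃ t, X.top z.length A t < 2 ^ X.L t ∧ z = X.cd t (X.top z.length A t))

theorem PJ.adv_loc : Loc X.adv := by
  intro z A A' h
  unfold PJ.adv
  rw [X.top_congr h]
  unfold PJ.F PJ.B
  rw [X.st_congr z.length h]

open Classical in
/-- the strings that should be controlled -/
noncomputable def PJ.Y (l : ℕ) (A : Oracle) : Finset (List Bool) :=
  (X.F l A).filter (fun y => l ≤ y.length) ∪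
    (X.T l).biUnion fun t => (range (2 ^ X.L t)).image (X.cd t)

theorem PJ.Y_congr {l : ℕ} {A A' : Oracle} (h : ∀ y : List Bool, y.length < l → A y = A' y) :
    X.Y l A = X.Y l A' := by
  unfold PJ.Y PJ.F
  rw [X.st_congr l h]

theorem PJ.mem_Y_F {l : ℕ} {A : Oracle} {y : List Bool} (h1 : y ∈ X.F l A) (h2 : l ≤ y.length) :
    y ∈ X.Y l A := by
  classical
  unfold PJ.Y
  rw [mem_union, mem_filter]
  exact Or.inl ⟨h1, h2⟩

theorem PJ.mem_Y_C {l : ℕ} (A : Oracle) {t : ℕ × List Bool} (ht : t ∈ X.T l) {v : ℕ}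
    (hv : v < 2 ^ X.L t) : X.cd t v ∈ X.Y l A := by
  classical
  unfold PJ.Y
  rw [mem_union, mem_biUnion]
  exact Or.inr ⟨t, ht, mem_image.2 ⟨v, mem_range.2 hv, rfl⟩⟩

theorem PJ.mem_Y_len {l : ℕ} {A : Oracle} {y : List Bool} (hy : y ∈ X.Y l A) : l ≤ y.length := by
  classical
  unfold PJ.Y at hy
  rw [mem_union, mem_filter, mem_biUnion] at hy
  rcases hy with h | ⟨t, ht, h⟩
  · exact h.2
  · obtain ⟨v, hv, rfl⟩ := mem_image.1 h
    rw [X.length_cd t v (mem_range.1 hv), (X.mem_T l t).1 ht]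

/-- the number of the strings that should be controlled -/
theorem PJ.card_Y (l : ℕ) (A : Oracle) : (X.Y l A).card ≤
    ∑ j ∈ range (l + 1), ∑ t ∈ X.T j, X.p t + ∑ t ∈ X.T l, 2 ^ X.L t := by
  classical
  unfold PJ.Y
  refine (card_union_le _ _).trans (Nat.add_le_add
    ((card_le_card (filter_subset _ _)).trans (X.card_F l A)) ?_)
  refine card_biUnion_le.trans (sum_le_sum fun t _ => ?_)
  exact card_image_le.trans (by rw [card_range])

/-- the strategy is followed at stage `l` -/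
def PJ.good (l : ℕ) (A : Oracle) : Prop := ∀ y ∈ X.Y l A, A y = X.adv y A

/-- the oracle agrees with the frozen values -/
theorem PJ.agree {l : ℕ} {A : Oracle} (h : X.good l A) {y : List Bool} (hy : y ∈ X.F l A) :
    A y = X.B l A y := by
  by_cases hl : l ≤ y.length
  · rw [h y (X.mem_Y_F hy hl)]
    unfold PJ.adv
    rw [if_pos (X.F_mono hl A hy)]
    exact X.B_eq hl A hy le_rfl
  · exact ((X.B_mem l A).1 y (not_le.1 hl)).symm

/-- the marked numbers -/
theorem PJ.marked {l : ℕ} {A : Oracle} (h : X.good l A) {t : ℕ × List Bool} (ht : t ∈ X.T l)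
    {v : ℕ} (hv : v < 2 ^ X.L t) (h1 : A (X.cd t v) = true) :
    (v / 2 ^ (X.L t - X.S (l + 1)) < X.P l A) ∨ v = X.top l A t := by
  classical
  have hl := (X.mem_T l t).1 ht
  have h2 := h _ (X.mem_Y_C A ht hv)
  rw [h1] at h2
  unfold PJ.adv at h2
  rw [X.length_cd t v hv, hl] at h2
  by_cases hF : X.cd t v ∈ X.F l A
  · rw [if_pos hF] at h2
    left
    have h3 := (X.B_mem l A).2.2 t hl.ge v hv h2.symm
    have h4 := (X.pick_spec ⟨t, ht⟩ A (X.st l A)).1
    have h5 : X.P l A = (X.st l A).2.2 * 2 ^ X.κ l + X.pick l A (X.st l A) := rfl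
    omega
  · rw [if_neg hF] at h2
    right
    obtain ⟨s, h3, h4⟩ := decide_eq_true_iff.1 h2.symm
    obtain ⟨h5, h6⟩ := X.inj t s _ _ hv h3 h4
    rw [h6, h5]

theorem PJ.mem_cls {l : ℕ} {A : Oracle} (h : ∀ l', l ≤ l' → X.good l' A) :
    A ∈ X.cls l A (X.st l A) (X.P l A) := by
  refine ⟨fun _ _ => rfl, fun y hy hl => ?_, fun t ht v hv h1 => ?_⟩
  · have h1 : y ∈ X.F l A := by
      classical
      rw [X.F_eq]
      exact mem_union_left _ hy
    rw [X.agree (h l le_rfl) h1]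
    exact (X.B_mem l A).2.1 y hy hl
  · have h2 : t ∈ X.T (X.len t) := (X.mem_T _ _).2 rfl
    have h3 : v / 2 ^ (X.L t - X.S (X.len t + 1)) ≤ X.P (X.len t) A := by
      rcases X.marked (h _ ht) h2 hv h1 with h4 | h4
      · exact h4.le
      · rw [h4]
        exact (X.top_spec A h2).2.1.le
    have h4 := X.S_mono (show l + 1 ≤ X.len t + 1 by omega)
    have h5 := X.S_le (le_refl (X.len t))
    obtain ⟨d, hd⟩ : ∃ d, X.S (X.len t + 1) = X.S (l + 1) + d := ⟨_, (Nat.add_sub_of_le h4).symm⟩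
    have h6 := X.P_div ht A
    rw [hd, Nat.add_sub_cancel_left] at h6
    rw [div_shift (k := d) (by omega), ← hd, ← h6]
    exact Nat.div_le_div_right h3

/-- the answers are right -/
theorem PJ.answer {l : ℕ} {A : Oracle} (h : ∀ l', l ≤ l' → X.good l' A) {t : ℕ × List Bool}
    (ht : t ∈ X.T l) : X.Q t A ↔ X.Q t (X.B l A) := by
  classical
  have hsub : ∀ t ∈ X.T l, X.Q t (X.B l A) → X.Q t A := by
    intro t ht hq
    refine X.U_spec hq A fun u hu => X.agree (h l le_rfl) ?_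
    rw [X.F_eq]
    exact mem_union_right _ (mem_biUnion.2 ⟨t, ht, hu⟩)
  refine ⟨fun hq => ?_, hsub t ht⟩
  have hmax := X.B_max ⟨t, ht⟩ A A (X.mem_cls h)
  have h2 : (X.T l).filter (fun t => X.Q t (X.B l A)) ⊆
      (X.T l).filter (fun t => X.Q t A) := by
    intro s hs
    rw [mem_filter] at hs ⊢
    exact ⟨hs.1, hsub s hs.1 hs.2⟩
  have h3 := eq_of_subset_of_card_le h2 hmax
  have h4 : t ∈ (X.T l).filter (fun t => X.Q t A) := mem_filter.2 ⟨ht, hq⟩
  rw [← h3, mem_filter] at h4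
  exact h4.2

/-- the largest marked number is right -/
theorem PJ.correct {l : ℕ} {A : Oracle} (h : ∀ l', l ≤ l' → X.good l' A) {t : ℕ × List Bool}
    (ht : t ∈ X.T l) :
    X.Q t A ↔ Z (fun t => 2 ^ X.L t) X.cd t A % 2 = 1 := by
  classical
  have hl := (X.mem_T l t).1 ht
  obtain ⟨h1, h2, h3, h4⟩ := X.top_spec A ht
  have hA : A (X.cd t (X.top l A t)) = true := by
    rw [h l le_rfl _ (X.mem_Y_C A ht h1)]
    unfold PJ.adv
    rw [X.length_cd t _ h1, hl, if_neg h4, decide_eq_true_iff]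
    exact ⟨t, h1, rfl⟩
  have hZ : Z (fun t => 2 ^ X.L t) X.cd t A = X.top l A t := by
    refine Z_eq h1 hA fun v hv hv1 => ?_
    rcases X.marked (h l le_rfl) ht hv hv1 with h5 | h5
    · rw [← h2] at h5
      by_contra hcon
      exact absurd (Nat.div_le_div_right (c := 2 ^ (X.L t - X.S (l + 1))) (not_le.1 hcon).le)
        (not_le.2 h5)
    · exact h5.le
  rw [hZ, h3]
  exact X.answer h ht

/-- The coding theorem. -/
theorem PJ.coded {ε : ℕ → ℝ} (hε : ∀ n, 0 ≤ ε n) {b : ℕ → ℝ} (hb0 : ∀ l, 0 ≤ b l)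
    (hb : ∀ l m, l ≤ m → 1 - 2 * ε m ≤ b l) {c : ℕ → ℕ}
    (hc : ∀ l, ∑ j ∈ range (l + 1), ∑ t ∈ X.T j, X.p t + ∑ t ∈ X.T l, 2 ^ X.L t ≤ c l)
    (hsum : Summable fun l => (c l : ℝ) * b l) :
    ∃ μ : Measure Oracle, IsProbabilityMeasure μ ∧ Biased ε μ ∧
      ∀ᵐ A ∂μ, ∃ l₀, ∀ t, l₀ ≤ X.len t → (X.Q t A ↔ Z (fun t => 2 ^ X.L t) X.cd t A % 2 = 1) := by
  obtain ⟨μ, h1, h2, h3⟩ := coded_gen X.adv_loc (Y := X.Y) (fun l A A' h => X.Y_congr h)
    (fun l A y hy => X.mem_Y_len hy) hε hb0 hb (fun l A => (X.card_Y l A).trans (hc l)) hsum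
  refine ⟨μ, h1, h2, ?_⟩
  filter_upwards [h3] with A hA
  obtain ⟨l₀, hl₀⟩ := eventually_atTop.1 hA
  exact ⟨l₀, fun t ht => X.correct (fun l' hl' => hl₀ l' (ht.trans hl')) ((X.mem_T _ _).2 rfl)⟩

end Pool.Agent.TH755.BN
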