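import Pool.Agent.TH755.BE.Chain
import Pool.Agent.TH755.BE.Lang
import Pool.Agent.TH678.PN.Main

/-!
# A language in `E` which is not given by the strings of polynomial length
-/

set_option autoImplicit false

namespace Pool.Agent.TH755.BN

open Pool.Agent.NPC Pool.Agent.H620R2.Gauge Finset MeasureTheory Filter
open Pool.Agent.W900.BC Pool.Agent.TH755.BE
open Pool.Agent.H622R2.Exp (InTime Lin Pol)
open Pool.Agent.TH755.CL (exists_str)
open Pool.Agent.TH707.EC (keys mem_keys card_keys poly_le_two_pow_div)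

/-- `L` is given by one of the functionals `Ψ 0`, `Ψ 1`, ... from the strings of polynomial length
in the oracle and subexponential advice: for some `e` and `c`, the functional `Ψ e` decides `L`; on
inputs of length `n` it gets the input, the part of the oracle consisting of the strings of length
at most `(n + c) ^ c`, and a string `h n` which depends on `n` only and has length `2 ^ o(n)`. -/
def LocalPoly (Ψ : ℕ → Oracle → List Bool → Prop) (A : Oracle) (L : Set (List Bool)) : Prop :=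
  ∃ (e c : ℕ) (h : ℕ → List Bool),
    (∀ δ : ℝ, 0 < δ → ∀ᶠ n : ℕ in atTop, ((h n).length : ℝ) ≤ 2 ^ (δ * n)) ∧
    ∀ x : List Bool, x ∈ L ↔
      Ψ e (fun q => decide (q.length ≤ (x.length + c) ^ c) && A q) (pairBits x (h x.length))

/-- the functional `ψ` with the advice `g` is right for the inputs of length `2 n` -/
def Ev (ψ : Oracle → List Bool → Prop) (c n : ℕ) (g : List Bool) : Set Oracle :=
  {A | ∀ x : List Bool, x.length = 2 * n → (x ∈ tl A ↔
    ψ (fun q => decide (q.length ≤ (2 * n + c) ^ c) && A q) (pairBits x g))}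

theorem ev_le {ε : ℕ → ℝ} {μ : Measure Oracle} [IsProbabilityMeasure μ] (h : Biased ε μ)
    (ψ : Oracle → List Bool → Prop) {c n m : ℕ} (g : List Bool) (hnm : 2 * n + 1 ≤ m)
    (hm : m < 2 ^ n) (hc : (2 * n + c) ^ c < m) :
    μ (Ev ψ c n g) ≤ ENNReal.ofReal (1 / 2 + ε m) ^ (2 ^ n) := by
  classical
  obtain ⟨w, hw1, hw2⟩ := exists_str (a := m - 2 * n) (l := n) (by omega)
  set o : List Bool := List.replicate (m - 2 * n) false with ho
  set P : Finset ℕ := (keys n).image fun x => idx (x ++ w ++ o) with hP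
  have hlen : ∀ x ∈ keys n, (x ++ w ++ o).length = m := by
    intro x hx
    rw [List.length_append, List.length_append, ho, List.length_replicate, mem_keys.1 hx, hw1]
    omega
  have hPc : P.card = 2 ^ n := by
    rw [hP, card_image_of_injOn, card_keys]
    intro x _ y _ he
    have h1 := congrArg str he
    simp only [str_idx] at h1
    exact List.append_cancel_right (List.append_cancel_right h1)
  have hlP : ∀ i ∈ P, (str i).length = m := by
    intro i hi
    rw [hP, mem_image] at hi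
    obtain ⟨x, hx, rfl⟩ := hi
    rw [str_idx]
    exact hlen x hx
  rw [← hPc]
  refine (measure_mono ?_).trans (chain_le h P (fun i A =>
    decide (ψ (fun q => decide (q.length ≤ (2 * n + c) ^ c) && A q)
      (pairBits ((str i).take (2 * n)) g))) ?_ ?_)
  · intro A hA i hi
    rw [hP, mem_image] at hi
    obtain ⟨x, hx, rfl⟩ := hi
    have hx' := mem_keys.1 hx
    have h0 : (x ++ w).length = 2 * n := by rw [List.length_append, hx', hw1]; omega
    have h1 := hA (x ++ w) h0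
    have h2 : (x ++ w).length / 2 = x.length := by
      rw [h0, hx']
      omega
    have h3 : qz (x ++ w) = x ++ w ++ o := by
      unfold qz
      rw [h2, List.drop_left', hw2]
      rfl
    have h4 : (x ++ w ∈ tl A) = (A (x ++ w ++ o) = true) := by
      rw [← h3]
      rfl
    rw [h4] at h1
    show A (str (idx (x ++ w ++ o))) =
      decide (ψ _ (pairBits ((str (idx (x ++ w ++ o))).take (2 * n)) g))
    rw [str_idx, List.take_left' h0, Bool.eq_iff_iff, decide_eq_true_iff, ← h1]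
  · intro i hi A B hAB
    have h1 : (fun q : List Bool => decide (q.length ≤ (2 * n + c) ^ c) && A q) =
        fun q : List Bool => decide (q.length ≤ (2 * n + c) ^ c) && B q := by
      funext q
      by_cases hq : q.length ≤ (2 * n + c) ^ c
      · rw [decide_eq_true hq, Bool.true_and, Bool.true_and]
        have h2 : idx q < i := by
          have h2 := idx_lt_of_length (z' := q) (z := str i) (by rw [hlP i hi]; omega)
          rwa [idx_str] at h2
        have h3 := congrFun hAB ⟨idx q, h2⟩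
        unfold pre at h3
        simp only [str_idx] at h3
        exact h3
      · rw [decide_eq_false hq, Bool.false_and, Bool.false_and]
    show decide (ψ _ _) = decide (ψ _ _)
    rw [h1]
  · intro i hi
    rw [hlP i hi]

/-- the functional `ψ` is right with some advice of length at most `s` -/
def Fv (ψ : Oracle → List Bool → Prop) (c n s : ℕ) : Set Oracle :=
  {A | ∃ g : List Bool, g.length ≤ s ∧ A ∈ Ev ψ c n g}

theorem fv_le {ε : ℕ → ℝ} {μ : Measure Oracle} [IsProbabilityMeasure μ] (h : Biased ε μ)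
    (ψ : Oracle → List Bool → Prop) {c n m s : ℕ} (hnm : 2 * n + 1 ≤ m)
    (hm : m < 2 ^ n) (hc : (2 * n + c) ^ c < m)
    (hT : ((s + 1 + n : ℕ) : ℝ) ≤ (1 / 2 - ε m) * 2 ^ n) :
    μ (Fv ψ c n s) ≤ ENNReal.ofReal ((1 / 2) ^ n) := by
  classical
  have hsub : Fv ψ c n s ⊆ ⋃ g ∈ (range (2 ^ (s + 1))).image str, Ev ψ c n g := by
    rintro A ⟨g, hg, hA⟩
    refine Set.mem_iUnion₂.2 ⟨g, mem_image.2 ⟨idx g, ?_, str_idx _⟩, hA⟩
    rw [mem_range]
    exact lt_of_lt_of_le (Nat.lt_of_succ_lt (idx_lt g))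
      (Nat.pow_le_pow_right (by norm_num) (by omega))
  have h5 : ENNReal.ofReal (1 / 2 + ε m) ^ (2 ^ n) ≤
      ENNReal.ofReal ((1 / 2) ^ (s + 1 + n)) := by
    have h6 : 1 / 2 + ε m ≤ Real.exp (-(1 / 2 - ε m)) := by
      have := Real.one_sub_le_exp_neg (1 / 2 - ε m)
      linarith
    have h7 : ENNReal.ofReal (1 / 2 + ε m) ^ (2 ^ n) ≤
        ENNReal.ofReal (Real.exp (-(1 / 2 - ε m)) ^ (2 ^ n)) := by
      rw [ENNReal.ofReal_pow (Real.exp_pos _).le]
      exact pow_le_pow_left' (ENNReal.ofReal_le_ofReal h6) _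
    refine h7.trans (ENNReal.ofReal_le_ofReal ?_)
    rw [← Real.exp_nat_mul]
    have h8 : Real.exp (-1) ≤ 1 / 2 := by
      rw [Real.exp_neg, one_div]
      apply inv_anti₀ (by norm_num)
      have := Real.add_one_le_exp (1 : ℝ)
      linarith
    have h9 : ((2 ^ n : ℕ) : ℝ) * -(1 / 2 - ε m) ≤ ((s + 1 + n : ℕ) : ℝ) * (-1) := by
      push_cast at hT ⊢
      linarith
    calc Real.exp (((2 ^ n : ℕ) : ℝ) * -(1 / 2 - ε m))
        ≤ Real.exp (((s + 1 + n : ℕ) : ℝ) * (-1)) := Real.exp_le_exp.2 h9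
      _ = Real.exp (-1) ^ (s + 1 + n) := Real.exp_nat_mul _ _
      _ ≤ _ := pow_le_pow_left₀ (Real.exp_pos _).le h8 _
  refine (measure_mono hsub).trans ((measure_biUnion_finset_le _ _).trans
    ((sum_le_sum fun g _ => (ev_le h ψ g hnm hm hc).trans h5).trans ?_))
  rw [sum_const, nsmul_eq_mul]
  have h1 : (((range (2 ^ (s + 1))).image str).card : ENNReal) ≤ ENNReal.ofReal (2 ^ (s + 1)) := by
    have h2 : ((range (2 ^ (s + 1))).image str).card ≤ 2 ^ (s + 1) :=
      card_image_le.trans (by rw [card_range])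
    have h3 : ENNReal.ofReal (2 ^ (s + 1)) = ((2 ^ (s + 1) : ℕ) : ENNReal) := by
      rw [← ENNReal.ofReal_natCast]
      push_cast
      rfl
    rw [h3]
    exact_mod_cast h2
  refine (mul_le_mul_left h1 _).trans (le_of_eq ?_)
  rw [← ENNReal.ofReal_mul (by positivity)]
  congr 1
  rw [pow_add (1 / 2 : ℝ), ← mul_assoc, ← mul_pow]
  norm_num

/-- roots -/
theorem exists_root {k : ℕ} (hk : 1 ≤ k) (m : ℕ) : ∃ n : ℕ, n ^ k ≤ m ∧ m < (n + 1) ^ k := by
  classical
  have h0 : ∃ n : ℕ, m < (n + 1) ^ k := ⟨m, by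
    calc m < m + 1 := Nat.lt_succ_self m
      _ ≤ (m + 1) ^ k := Nat.le_self_pow (by omega) _⟩
  refine ⟨Nat.find h0, ?_, Nat.find_spec h0⟩
  rcases Nat.eq_zero_or_pos (Nat.find h0) with h | h
  · rw [h, zero_pow (by omega)]
    exact Nat.zero_le m
  · have h1 := Nat.find_min h0 (show Nat.find h0 - 1 < Nat.find h0 by omega)
    rw [Nat.sub_add_cancel h] at h1
    exact not_lt.1 h1

/-- the choice of the parameters -/
theorem params {ε : ℕ → ℝ}
    (hε : ∀ δ : ℝ, 0 < δ → ∃ᶠ m : ℕ in atTop, (2 : ℝ) ^ (-((m : ℝ) ^ δ)) ≤ 1 / 2 - ε m)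
    (c N : ℕ) :
    ∃ n m : ℕ, N ≤ n ∧ 2 * n + 1 ≤ m ∧ m < 2 ^ n ∧ (2 * n + c) ^ c < m ∧
      ((2 ^ (n / 2) + 1 + n : ℕ) : ℝ) ≤ (1 / 2 - ε m) * 2 ^ n := by
  set k := c + 2 with hk
  have hk0 : (0 : ℝ) < k := by rw [hk]; positivity
  -- the size
  obtain ⟨n₁, hn₁⟩ := eventually_atTop.1
    (poly_le_two_pow_div ((Polynomial.X + 1) ^ k) (E := 1) (le_refl 1))
  obtain ⟨T, hT⟩ : ∃ T, 3 ^ c = T := ⟨_, rfl⟩
  set N₀ := N + n₁ + T + c + 40 with hN₀
  have hev : ∀ᶠ m : ℕ in atTop, (N₀ + 1) ^ k ≤ m := eventually_ge_atTop _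
  obtain ⟨m, hm, hmN⟩ := ((hε (1 / (2 * k)) (by positivity)).and_eventually hev).exists
  obtain ⟨n, hn1, hn2⟩ := exists_root (k := k) (by omega) m
  have hnN : N₀ ≤ n := by
    by_contra hcon
    have h1 : (n + 1) ^ k ≤ (N₀ + 1) ^ k := Nat.pow_le_pow_left (by omega) k
    omega
  have hn3 : 3 * n ≤ n ^ 2 := by nlinarith
  have hnk : n ^ 2 ≤ n ^ k := Nat.pow_le_pow_right (by omega) (by omega)
  refine ⟨n, m, by omega, by omega, ?_, ?_, ?_⟩
  · have h1 := hn₁ n (by omega)
    simp only [Polynomial.eval_pow, Polynomial.eval_add, Polynomial.eval_X, Polynomial.eval_one,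
      Nat.div_one] at h1
    omega
  · calc (2 * n + c) ^ c ≤ (3 * n) ^ c := Nat.pow_le_pow_left (by omega) c
      _ = T * n ^ c := by rw [mul_pow, hT]
      _ ≤ n * n ^ c := Nat.mul_le_mul_right _ (by omega)
      _ = n ^ (c + 1) := by rw [pow_succ]; ring
      _ < n ^ k := Nat.pow_lt_pow_right (by omega) (by omega)
      _ ≤ m := hn1
  · have h1 : (m : ℝ) ^ (1 / (2 * (k : ℝ))) ≤ (n : ℝ) / 4 := by
      have h2 : (m : ℝ) ≤ ((n : ℝ) + 1) ^ (k : ℝ) := by
        rw [Real.rpow_natCast]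
        exact_mod_cast hn2.le
      have h3 : (m : ℝ) ^ (1 / (2 * (k : ℝ))) ≤ ((n : ℝ) + 1) ^ ((1 : ℝ) / 2) := by
        calc (m : ℝ) ^ (1 / (2 * (k : ℝ)))
            ≤ (((n : ℝ) + 1) ^ (k : ℝ)) ^ (1 / (2 * (k : ℝ))) :=
              Real.rpow_le_rpow (Nat.cast_nonneg m) h2 (by positivity)
          _ = ((n : ℝ) + 1) ^ ((1 : ℝ) / 2) := by
              rw [← Real.rpow_mul (by positivity)]
              congr 1
              field_simp
      refine h3.trans ?_
      rw [← Real.sqrt_eq_rpow]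
      apply Real.sqrt_le_iff.2
      constructor
      · positivity
      · have h4 : (40 : ℝ) ≤ n := by
          have : 40 ≤ n := by omega
          exact_mod_cast this
        nlinarith
    have h5 : (2 : ℝ) ^ (((n / 2 + n / 8 : ℕ) : ℝ)) ≤ (1 / 2 - ε m) * 2 ^ n := by
      calc (2 : ℝ) ^ (((n / 2 + n / 8 : ℕ) : ℝ))
          ≤ (2 : ℝ) ^ (-((m : ℝ) ^ (1 / (2 * (k : ℝ)))) + n) := by
            apply Real.rpow_le_rpow_of_exponent_le (by norm_num)
            have h9 : ((n / 2 : ℕ) : ℝ) ≤ n / 2 := Nat.cast_div_le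
            have h10 : ((n / 8 : ℕ) : ℝ) ≤ n / 8 := Nat.cast_div_le
            have h11 : (0 : ℝ) ≤ n := Nat.cast_nonneg n
            push_cast
            linarith
        _ = (2 : ℝ) ^ (-((m : ℝ) ^ (1 / (2 * (k : ℝ))))) * 2 ^ n := by
            rw [Real.rpow_add (by norm_num), Real.rpow_natCast]
        _ ≤ _ := mul_le_mul_of_nonneg_right hm (by positivity)
    refine le_trans ?_ h5
    rw [Real.rpow_natCast]
    have h6 : 2 ^ (n / 2) + 1 + n ≤ 2 ^ (n / 2 + n / 8) := by
      have h7 : n + 1 ≤ 2 ^ (n / 2) := by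
        have h8 : ∀ i, 20 ≤ i → 2 * i + 2 ≤ 2 ^ i := by
          intro i hi
          induction i, hi using Nat.le_induction with
          | base => norm_num
          | succ i hi ih =>
            rw [pow_succ]
            omega
        have := h8 (n / 2) (by omega)
        omega
      have h9 : 2 ^ (n / 2 + 1) ≤ 2 ^ (n / 2 + n / 8) :=
        Nat.pow_le_pow_right (by norm_num) (by omega)
      rw [pow_succ] at h9
      omega
    exact_mod_cast h6

/-- the oracles for which the functional number `p.1` is right for the test language -/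
def Easy (Ψ : ℕ → Oracle → List Bool → Prop) (p : ℕ × ℕ) : Set Oracle :=
  {A | ∃ h : ℕ → List Bool,
    (∀ δ : ℝ, 0 < δ → ∀ᶠ n : ℕ in atTop, ((h n).length : ℝ) ≤ 2 ^ (δ * n)) ∧
    ∀ x : List Bool, x ∈ tl A ↔
      Ψ p.1 (fun q => decide (q.length ≤ (x.length + p.2) ^ p.2) && A q)
        (pairBits x (h x.length))}

theorem easy_null {ε : ℕ → ℝ}
    (hε : ∀ δ : ℝ, 0 < δ → ∃ᶠ m : ℕ in atTop, (2 : ℝ) ^ (-((m : ℝ) ^ δ)) ≤ 1 / 2 - ε m)
    {μ : Measure Oracle} [IsProbabilityMeasure μ] (h : Biased ε μ)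
    (Ψ : ℕ → Oracle → List Bool → Prop) (p : ℕ × ℕ) : μ (Easy Ψ p) = 0 := by
  choose n m h1 h2 h3 h4 h5 using params hε p.2
  set S : ℕ → Set Oracle := fun M => ⋂ N ≥ M, Fv (Ψ p.1) p.2 (n N) (2 ^ (n N / 2)) with hS
  have hsub : Easy Ψ p ⊆ ⋃ M, S M := by
    rintro A ⟨g, hg, hA⟩
    have hg4 := hg (1 / 8) (by norm_num)
    obtain ⟨n₀, hn₀⟩ := eventually_atTop.1 (hg4.and (eventually_ge_atTop 8))
    refine Set.mem_iUnion.2 ⟨n₀, Set.mem_iInter₂.2 fun N hN => ⟨g (2 * n N), ?_, fun x hx => ?_⟩⟩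
    · have hN1 : n₀ ≤ n N := (ge_iff_le.1 hN).trans (h1 N)
      have h6 := hn₀ (2 * n N) (by omega)
      have h7 : ((g (2 * n N)).length : ℝ) ≤ ((2 ^ (n N / 2) : ℕ) : ℝ) := by
        refine h6.1.trans ?_
        push_cast
        rw [← Real.rpow_natCast]
        apply Real.rpow_le_rpow_of_exponent_le (by norm_num)
        have h8 : n N ≤ 4 * (n N / 2) := by have := h6.2; omega
        have h9 : ((n N : ℕ) : ℝ) ≤ 4 * ((n N / 2 : ℕ) : ℝ) := by exact_mod_cast h8
        linarith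
      exact_mod_cast h7
    · have h5 := hA x
      rw [hx] at h5
      exact h5
  have hS0 : ∀ M, μ (S M) = 0 := by
    intro M
    have hle : ∀ N ≥ M, μ (S M) ≤ ENNReal.ofReal ((1 / 2) ^ N) := by
      intro N hN
      refine (measure_mono (Set.iInter₂_subset N hN)).trans ((fv_le h (Ψ p.1) (s := 2 ^ (n N / 2))
        (h2 N) (h3 N) (h4 N) (h5 N)).trans (ENNReal.ofReal_le_ofReal ?_))
      exact pow_le_pow_of_le_one (by norm_num) (by norm_num) (h1 N)
    have ht : Tendsto (fun N : ℕ => ENNReal.ofReal ((1 / 2) ^ N)) atTop (nhds 0) := by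
      have := ENNReal.tendsto_ofReal (tendsto_pow_atTop_nhds_zero_of_lt_one
        (show (0 : ℝ) ≤ 1 / 2 by norm_num) (by norm_num))
      rwa [ENNReal.ofReal_zero] at this
    exact le_antisymm (ge_of_tendsto ht (eventually_atTop.2 ⟨M, hle⟩)) zero_le
  refine measure_mono_null hsub (measure_iUnion_null hS0)

/-- **The positive half.** -/
theorem pos {ε : ℕ → ℝ}
    (hε : ∀ δ : ℝ, 0 < δ → ∃ᶠ m : ℕ in atTop, (2 : ℝ) ^ (-((m : ℝ) ^ δ)) ≤ 1 / 2 - ε m)
    {μ : Measure Oracle} [IsProbabilityMeasure μ] (h : Biased ε μ)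
    (Ψ : ℕ → Oracle → List Bool → Prop) :
    ∀ᵐ A ∂μ, InTime Lin A (tl A) ∧ ¬ LocalPoly Ψ A (tl A) := by
  have h1 : ∀ᵐ A ∂μ, ∀ p : ℕ × ℕ, A ∉ Easy Ψ p :=
    ae_all_iff.2 fun p => by
      rw [ae_iff]
      simp only [not_not]
      exact easy_null hε h Ψ p
  filter_upwards [h1] with A hA
  refine ⟨tl_inTime A, ?_⟩
  rintro ⟨e, c, g, h2, h3⟩
  exact hA (e, c) ⟨g, h2, h3⟩

/-! ### `PSPACE` -/

/-- every polynomial is small -/
theorem exists_power (p : Polynomial ℕ) : ∃ c : ℕ, ∀ n : ℕ, p.eval n ≤ (n + c) ^ c := by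
  induction p using Polynomial.induction_on' with
  | add p q hp hq =>
    obtain ⟨a, ha⟩ := hp
    obtain ⟨b, hb⟩ := hq
    refine ⟨a + b + 2, fun n => ?_⟩
    rw [Polynomial.eval_add]
    have h1 : (n + a) ^ a ≤ (n + (a + b + 2)) ^ (a + b + 1) :=
      (Nat.pow_le_pow_left (by omega) a).trans (Nat.pow_le_pow_right (by omega) (by omega))
    have h2 : (n + b) ^ b ≤ (n + (a + b + 2)) ^ (a + b + 1) :=
      (Nat.pow_le_pow_left (by omega) b).trans (Nat.pow_le_pow_right (by omega) (by omega))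
    have h3 : (n + (a + b + 2)) ^ (a + b + 2) =
        (n + (a + b + 2)) ^ (a + b + 1) * (n + (a + b + 2)) := pow_succ _ _
    have h4 : (n + (a + b + 2)) ^ (a + b + 1) * 2 ≤
        (n + (a + b + 2)) ^ (a + b + 1) * (n + (a + b + 2)) :=
      Nat.mul_le_mul_left _ (by omega)
    have := ha n
    have := hb n
    omega
  | monomial k a =>
    refine ⟨k + a + 1, fun n => ?_⟩
    rw [Polynomial.eval_monomial]
    calc a * n ^ k ≤ (n + (k + a + 1)) * (n + (k + a + 1)) ^ k :=
          Nat.mul_le_mul (by omega) (Nat.pow_le_pow_left (by omega) k)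
      _ = (n + (k + a + 1)) ^ (k + 1) := by rw [pow_succ]; ring
      _ ≤ _ := Nat.pow_le_pow_right (by omega) (by omega)

end Pool.Agent.TH755.BN
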